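import Pool.Agent.Helper38.NS.ForestMain

/-!
# Trees of groups whose edge groups lie in congruence subgroups

`C` is any class of groups with the closure properties `ClosedE C` (`Pool.Agent.Y110.FJ.ClosedE`) which
contains the groups `GL_n(ℚ)`. All this is published for the class of the groups which satisfy the
fibered Farrell–Jones conjecture in A-theory with finite wreath products.

Let a graph of groups be given, with vertex groups `G_v` in `C`. The underlying graph is a forest with any
number of vertices and edges, the edge groups `H_e` are arbitrary. Suppose that for each finite set of
edges there is a prime number `p` such that for each of these edges `e`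

* `H_e` is isomorphic to a group of `p`-integral matrices over `ℚ` which are congruent to the identity
  matrix modulo `p`, for instance to a subgroup of the principal congruence subgroup of level `p` of
  `GL_n(ℤ)` (finitely generated torsion-free nilpotent groups, right-angled Artin groups, arithmetic
  groups, ...);
* for both ends `v` of `e` there is a homomorphism from the vertex group `G_v` to a group that is obtained
  from `H_e` by adjoining generators `y ∈ Y` and finitely many relations `w_r(y) = 1` with coefficients in
  `H_e`, whose vectors of exponents in the letters `y` are linearly independent modulo `p`; and its
  composition with the edge homomorphism is the natural homomorphism.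

Then the group of the graph of groups is in `C`.

Proof. Systems of equations with coefficients in the congruence subgroup of level `p` of `GL_n(ℤ_p)` which
are nonsingular modulo `p` have solutions there, by successive approximation. So the given homomorphism
from one of the edge groups to this congruence subgroup extends to the vertex groups, one edge after the
other, and it has values in `GL_n` of a finitely generated `ℚ`-algebra. By the Nullstellensatz this algebra
has a homomorphism to a number field, so there is a homomorphism of the group of the graph of groups
to `GL_n` of a number field which is injective on the given edge group. Then the theorem of the library on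
graphs of groups (`Pool.Agent.Y462.EI.graph`) applies.
-/

set_option autoImplicit false

namespace Pool.Agent.Results.MP_59dd5b_al.CongruenceTrees

open Matrix
open Pool.Agent.Y110.FJ (ClosedE)
open Pool.Agent.Y462.EI (MX)
open Pool.Agent.Helper38.NS

/-- the group of a graph of groups: it is generated by the vertex groups and a letter for each edge `e`,
with the relations `e * τ_e(h) * e⁻¹ = σ_e(h)` -/
abbrev GraphGroup {V E : Type} (G : V → Type) [∀ v, Group (G v)] (s t : E → V)
    (H : E → Type) [∀ e, Group (H e)] (σ : ∀ e, H e →* G (s e)) (τ : ∀ e, H e →* G (t e)) : Type :=
  MX (fun e => (Monoid.CoprodI.of (i := t e)).comp (τ e))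
    (fun e => (Monoid.CoprodI.of (i := s e)).comp (σ e))

/-- **Forests of groups with edge groups in congruence subgroups.** -/
theorem result (C : ∀ (G : Type) [Group G], Prop) (hC : ClosedE C)
    (hL : ∀ n : ℕ, C (GL (Fin n) ℚ))
    (V E : Type) (s t : E → V) (hfor : IsForest s t)
    (G : V → Type) [∀ v, Group (G v)] (hG : ∀ v, C (G v))
    (H : E → Type) [∀ e, Group (H e)] (σ : ∀ e, H e →* G (s e)) (τ : ∀ e, H e →* G (t e))
    (hp : ∀ A : Finset E, ∃ (p : ℕ) (_ : Fact p.Prime), ∀ e ∈ A,
      InLevel p (H e) ∧ AdjoinP p (σ e) ∧ AdjoinP p (τ e)) :
    C (GraphGroup G s t H σ τ) :=
  forest_level C hC hL hG s t H σ τ hfor hp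

end Pool.Agent.Results.MP_59dd5b_al.CongruenceTrees
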