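import Pool.Agent.Helper38.NS.Chain

/-!
# Graphs of groups with free edge groups: pencils of linear maps on the rational homology

`C` is any class of groups with the closure properties `ClosedE C` (`Pool.Agent.Y110.FJ.ClosedE`) which
contains the groups `GL_n(ℚ)`. All this is published for the class of the groups which satisfy the
fibered Farrell–Jones conjecture in A-theory with finite wreath products.

Let a graph of groups be given, with vertex groups `G_v` in `C`, free edge groups `H_e` of arbitrary rank
and edge homomorphisms `σ_e : H_e → G_{s e}`, `τ_e : H_e → G_{t e}`. The graph is arbitrary. Let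
`π_v : G_v → Q_v` be homomorphisms to groups with finitely many rationally independent relators (for
instance free groups), and let `S` and `T` be the two linear maps
`⊕_e H_1(H_e; ℚ) → ⊕_v H_1(Q_v; ℚ)` given by the `σ_e` and by the `τ_e`. Suppose that `S` and `T` are
injective and that `S(W) ≠ T(W)` for all finite-dimensional subspaces `W ≠ 0`. Then the group of the
graph of groups is in `C`.

For instance, let `F` be a free group and let `u_j`, `v_j` (`j ∈ J`) be elements of `F`. The group
`⟨F, t | t u_j t⁻¹ = v_j, j ∈ J⟩` is in `C` if the two linear maps `ℚ^(J) → H_1(F; ℚ)` given by the `u_j`
and by the `v_j` are injective and have different images on each finite-dimensional subspace `W ≠ 0` (see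
`Pool.Agent.Helper38.NS.pres_hnn`). For `|J| < rank F` this holds for almost all choices of the exponent
vectors. (For `|J| = rank F` it never holds; these are the semidirect products and the ascending HNN
extensions and their likes.)

Proof. Let `K` be a free factor of finite rank of an edge group. For large `m` consider the cyclic
covering of degree `m` of the graph of groups where each edge raises the level by one. By the condition
on `S` and `T` the equations for the extension of a homomorphism from `K`, sitting in one of the `m`
levels, to the covering are independent over `ℚ`. For a large prime number `p` they are nonsingular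
modulo `p`, and have a solution in the group of the matrices over the `p`-adic integers which are
congruent to the identity modulo `p`. Starting with an injective homomorphism with integral values on `K`,
we find, by the Nullstellensatz, a homomorphism of the group of the graph of groups to a wreath
product `GL_n(k) ≀ S_m`, for a number field `k`, which is injective on `K`. Then the theorem of the library
on graphs of groups (`Pool.Agent.Y462.EI.graph`) applies.
-/

set_option autoImplicit false

namespace Pool.Agent.Results.MP_59dd5b_al.PencilEdgeGroups

open Matrix
open Pool.Agent.Y110.FJ (ClosedE)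
open Pool.Agent.Y462.EI (MX)
open Pool.Agent.Helper38.NS

/-- the group of a graph of groups: it is generated by the vertex groups and a letter for each edge `e`,
with the relations `e * τ_e(h) * e⁻¹ = σ_e(h)` -/
abbrev GraphGroup {V E : Type} (G : V → Type) [∀ v, Group (G v)] (s t : E → V)
    (H : E → Type) [∀ e, Group (H e)] (σ : ∀ e, H e →* G (s e)) (τ : ∀ e, H e →* G (t e)) : Type :=
  MX (fun e => (Monoid.CoprodI.of (i := t e)).comp (τ e))
    (fun e => (Monoid.CoprodI.of (i := s e)).comp (σ e))

/-- **Graphs of groups with free edge groups and a pencil without common invariant subspaces.** -/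
theorem result (C : ∀ (G : Type) [Group G], Prop) (hC : ClosedE C)
    (hL : ∀ n : ℕ, C (GL (Fin n) ℚ))
    (V E : Type) [DecidableEq V] (s t : E → V)
    (G Q : V → Type) [∀ v, Group (G v)] [∀ v, Group (Q v)] (π : ∀ v, G v →* Q v)
    (hG : ∀ v, C (G v)) (hQ : ∀ v, IndepRelators (Q v)) (B : E → Type)
    (σ : ∀ e, FreeGroup (B e) →* G (s e)) (τ : ∀ e, FreeGroup (B e) →* G (t e))
    (hS : Function.Injective (endMap π B s σ)) (hT : Function.Injective (endMap π B t τ))
    (hW : ∀ W : Submodule ℚ ((Σ e, B e) →₀ ℚ), W.FG →
      W.map (endMap π B s σ) = W.map (endMap π B t τ) → W = ⊥) :
    C (GraphGroup G s t (fun e => FreeGroup (B e)) σ τ) :=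
  crit C hC hL hG hQ π s t B σ τ (ctrl_of_noW π B s t σ τ hS hT hW)

end Pool.Agent.Results.MP_59dd5b_al.PencilEdgeGroups
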