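import Pool.Agent.Helper38.NS.ForestMain

/-!
# Trees of groups whose edge groups are free and injective in rational homology

`C` is any class of groups with the closure properties `ClosedE C` (`Pool.Agent.Y110.FJ.ClosedE`) which
contains the groups `GL_n(ℚ)`. All this is published for the class of the groups which satisfy the
fibered Farrell–Jones conjecture in A-theory with finite wreath products.

Let a graph of groups be given, with vertex groups `G_v` in `C`, free edge groups `H_e` of arbitrary rank
and edge homomorphisms `σ_e : H_e → G_{s e}`, `τ_e : H_e → G_{t e}`. The underlying graph is a forest with
any number of vertices and edges. Let `π_v : G_v → Q_v` be homomorphisms to groups with finitely many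
rationally independent relators (for instance free groups), and suppose that for both ends `v` of each
edge `e` every homomorphism `H_e → ℚ` extends to `Q_v`, that is, `H_1(H_e; ℚ) → H_1(Q_v; ℚ)` is injective.
Then the group of the graph of groups is in `C`.

For instance, `A *_H B` is in `C` for all free groups `A`, `B`, `H` of any rank if the two maps
`H_1(H; ℚ) → H_1(A; ℚ)` and `H_1(H; ℚ) → H_1(B; ℚ)` are injective. There is no condition on the position
of `H` (no malnormality, no quasiconvexity). This includes the groups
`⟨z, x, y | u_j(z, x) = v_j(z, y), j ∈ J⟩` such that the exponent vectors of the `u_j` in the letters `x`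
are linearly independent, and so are those of the `v_j` in the letters `y` (see
`Pool.Agent.Helper38.NS.pres_amalgam`), for example many groups with one relator.

Proof. Let finitely many elements of the edge groups be given, and let `K_e` be free factors of finite
rank of the finitely many edge groups that contain them. For a large prime number `p` the systems of
equations that describe the extensions of homomorphisms from `K_e` to `Q_v` are nonsingular modulo `p`.
So they can be solved, by successive approximation, in the group of the matrices over the `p`-adic
integers which are congruent to the identity modulo `p`. One `K_e` has an injective homomorphism to this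
group with integral values; it extends to all vertex groups, one edge after the other, and the values lie
in `GL_n` of a finitely generated `ℚ`-algebra. By the Nullstellensatz this algebra has a homomorphism to a
number field. We get a homomorphism of the whole group to `GL_n` of a number field, which is injective on
`K_e`. Then the theorem of the library on graphs of groups (`Pool.Agent.Y462.EI.graph`) applies.
-/

set_option autoImplicit false

namespace Pool.Agent.Results.MP_59dd5b_al.RationalTrees

open Matrix
open Pool.Agent.Y110.FJ (ClosedE)
open Pool.Agent.Y462.EI (MX)
open Pool.Agent.Helper38.NS

/-- the group of a graph of groups: it is generated by the vertex groups and a letter for each edge `e`,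
with the relations `e * τ_e(h) * e⁻¹ = σ_e(h)` -/
abbrev GraphGroup {V E : Type} (G : V → Type) [∀ v, Group (G v)] (s t : E → V)
    (H : E → Type) [∀ e, Group (H e)] (σ : ∀ e, H e →* G (s e)) (τ : ∀ e, H e →* G (t e)) : Type :=
  MX (fun e => (Monoid.CoprodI.of (i := t e)).comp (τ e))
    (fun e => (Monoid.CoprodI.of (i := s e)).comp (σ e))

/-- **Forests of groups with free edge groups which are injective in rational homology.** -/
theorem result (C : ∀ (G : Type) [Group G], Prop) (hC : ClosedE C)
    (hL : ∀ n : ℕ, C (GL (Fin n) ℚ))
    (V E : Type) (s t : E → V) (hfor : IsForest s t)
    (G Q : V → Type) [∀ v, Group (G v)] [∀ v, Group (Q v)] (π : ∀ v, G v →* Q v)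
    (hG : ∀ v, C (G v)) (hQ : ∀ v, IndepRelators (Q v)) (B : E → Type)
    (σ : ∀ e, FreeGroup (B e) →* G (s e)) (τ : ∀ e, FreeGroup (B e) →* G (t e))
    (hσ : ∀ e, RatInj ((π (s e)).comp (σ e))) (hτ : ∀ e, RatInj ((π (t e)).comp (τ e))) :
    C (GraphGroup G s t (fun e => FreeGroup (B e)) σ τ) :=
  forest_free C hC hL hG hQ π s t B σ τ hfor hσ hτ

end Pool.Agent.Results.MP_59dd5b_al.RationalTrees
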